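import Pool.Agent.Helper74.LI.Main

/-!
# Semistability of the first homology at infinity of locally indicable groups

Let `Gp rel` be a finitely presented group, given by any finite presentation, and `L` a subgroup of finite
index which is locally indicable (`LocInd L`: every nontrivial finitely generated subgroup of `L` has a
nontrivial homomorphism to the integers). `Dep N K` says that the homomorphism from the free product of
the subgroups `N` and `K` to the group is not injective: a nonempty alternating product of nontrivial
elements of `N` and `K` is `1`.

`Tame` is the smallest class of subgroups which contains the class `Good` (finitely presented one-ended
subgroups with semistable first homology at infinity, and others) and all subgroups generated by two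
elements which are neither cyclic nor free of rank two, and which contains `⟨N, s⟩` if it
contains `N` and `N`, `⟨s⟩` are dependent, `⟨N, N'⟩` if it contains `N`, `N'` and these are
dependent, and the directed unions of its members.

If `L` is tame, in particular if `L` is generated by two elements and is neither cyclic nor free, then the inverse
system of the first homology groups of the complements of the finite subcomplexes of the
universal cover of the presentation complex is semistable. The same holds if `L` is not cyclic and
contains no free subgroup of rank two.
-/

namespace Pool.Agent.Helper74.Kept.LocallyIndicable

open Pool.Agent.Helper39.AH Pool.Agent.Helper74.LI

theorem result {X R : Type} [Finite X] [Finite R] (rel : R → List (X × Bool))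
    (L : Subgroup (Gp rel)) (hfin : L.FiniteIndex) (hL : LocInd L) :
    (Tame L → H1Semistable rel) ∧
    (¬ IsCyclic L → (¬ ∃ f : FreeGroup Bool →* L, Function.Injective f) → H1Semistable rel) :=
  ⟨main rel L hfin hL, fun hc hF => main_no_free rel L hfin hL hF hc⟩

end Pool.Agent.Helper74.Kept.LocallyIndicable
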