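import Pool.Agent.Helper74.PF.Final

set_option autoImplicit false

namespace Pool.Agent.Helper74.Kept.PointForm

open Pool.Agent.Helper9.BSD Pool.Agent.Helper99.CM Pool.Agent.Helper10.UP Pool.Agent.Helper74.PF
  Filter Topology

/-- For every `k ≠ 0` the Euler products of the curves `y² = x³ - k x`, `y² = x³ + k`,
`y² = x³ + 6 k x² + k² x` and `y² = x³ + 6 k x² - 3 k² x` continue to entire functions `F` with a
zero of finite order at `s = 1`, and `SqWin` holds for them.

Let `W` be an integral Weierstrass equation with nonzero discriminant, `F` entire and equal to the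
Euler product `LE W` for `Re s > 3/2`, `m` the order of vanishing of `F` at `s = 1`, and
`a = F⁽ᵐ⁾(1) / m!`.  `EQ W` is the group of rational points, `nht P` the height
`log max (|numerator|, |denominator|)` of `x(P)`, `cht nht P = lim 4⁻ⁿ nht (2ⁿ P)`,
`theta nht t = ∑ exp (-π cht nht P / t)` over all rational points `P`.
(1) The rank of the group of rational points is `m` exactly if the quotient of the weighted Euler
product `starP W τ` by `(theta nht (e^(-kap) τ))²` has a positive limit as `τ → ∞`.
(2) For every real `X > 0` (for example the product of the period, the order of the group of Tate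
and Shafarevich and the Tamagawa numbers) the limit is `1 / X` exactly if there is a basis of `m`
points modulo torsion with `|a| = X * regulator / (number of torsion points)²`.
(3) If `SqWin W` holds, the same is true for the product `goodP W τ` of `(N_p / p) ^ w(log p)` over
the good primes, with the limit `√2 / (badProd W * X)`.
(4) If `SqWin W` holds, the rank is `m` exactly if the product `finP W x` of
`(N_p / p) ^ w(log p)` over the good primes `p ≤ x`, with `τ = (1/2) log log x`, lies between two
positive constants times the square of the number of rational points of height at most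
`log log x`. -/
theorem result :
    (∀ k : ℤ, k ≠ 0 → ∀ W : WeierstrassCurve ℤ,
      W = quar k ∨ W = sext k ∨ W = two (6 * k) (k ^ 2) ∨ W = two (6 * k) (-3 * k ^ 2) →
      W.Δ ≠ 0 ∧ SqWin W ∧ ∃ (F : ℂ → ℂ) (m : ℕ), IsCont W F m) ∧
    ∀ W : WeierstrassCurve ℤ, W.Δ ≠ 0 → ∀ (F : ℂ → ℂ) (m : ℕ), IsCont W F m →
    (Module.rank ℤ (EQ W) = m ↔ ∃ Y : ℝ, 0 < Y ∧
      Tendsto (fun τ : ℝ => starP W τ / (theta (nht (W := W)) (Real.exp (-kap) * τ)) ^ 2) atTop
        (𝓝 Y)) ∧
    (∀ X : ℝ, 0 < X →
      ((∃ P : Fin m → EQ W, IsMWBasis P ∧ ‖iteratedDeriv m F 1 / (m.factorial : ℂ)‖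
          = X * (gmat nht P).det / (tors (EQ W) : ℝ) ^ 2) ↔
        Tendsto (fun τ : ℝ => starP W τ / (theta (nht (W := W)) (Real.exp (-kap) * τ)) ^ 2) atTop
          (𝓝 (1 / X)))) ∧
    (SqWin W →
      (∀ X : ℝ, 0 < X →
        ((∃ P : Fin m → EQ W, IsMWBasis P ∧ ‖iteratedDeriv m F 1 / (m.factorial : ℂ)‖
            = X * (gmat nht P).det / (tors (EQ W) : ℝ) ^ 2) ↔
          Tendsto (fun τ : ℝ => goodP W τ / (theta (nht (W := W)) (Real.exp (-kap) * τ)) ^ 2) atTop
            (𝓝 (Real.sqrt 2 / (badProd W * X))))) ∧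
      (Module.rank ℤ (EQ W) = m ↔ ∃ c C : ℝ, 0 < c ∧ ∀ᶠ x : ℕ in atTop,
        c * (cnt (nht (W := W)) (Real.log (Real.log x)) : ℝ) ^ 2 ≤ finP W x ∧
          finP W x ≤ C * (cnt (nht (W := W)) (Real.log (Real.log x)) : ℝ) ^ 2)) := by
  refine ⟨fun k hk W hW => ?_, fun W hD F m hF => ⟨star_rank_iff hD hF, fun X hX =>
    star_iff hD hF hX, fun hS => ⟨fun X hX => good_iff hD hS hF hX, fin_iff hD hS hF⟩⟩⟩
  obtain ⟨h1, h2, F, m, h3, -⟩ := cm_all hk hW
  exact ⟨h1, h2, F, m, h3⟩

end Pool.Agent.Helper74.Kept.PointForm
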