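import Pool.Agent.Helper74.PF.Law

set_option autoImplicit false

namespace Pool.Agent.Results.MP_4a9ea6_nt.PrimesAndPoints

open Pool.Agent.Helper9.BSD Pool.Agent.Helper99.CM Pool.Agent.Helper74.PF Filter Topology
  MeasureTheory Set

/-- The weight `Re (1 / Γ (1 + e ^ (i / √t) log n / t))` with `t = (log log x) / 2`. -/
noncomputable def wt (x n : ℕ) : ℝ :=
  ((Complex.Gamma (1 + Complex.exp (Complex.I * ((√(Real.log (Real.log x) / 2))⁻¹ : ℝ))
    / (Real.log (Real.log x) / 2 : ℝ) * (Real.log n : ℝ)))⁻¹).re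

/-- The product of `(N_p / p) ^ (wt x p)` over the primes `p ≤ x` not dividing the
discriminant. -/
noncomputable def primeProd (W : WeierstrassCurve ℤ) (x : ℕ) : ℝ :=
  ∏ p ∈ (Finset.Icc 1 x).filter (fun p : ℕ => p.Prime ∧ ¬ (p : ℤ) ∣ W.Δ),
    ((numPts W p : ℝ) / p) ^ wt x p

/-- The same for prime powers: the exponential of the sum over `q = p ^ k ≤ x` of
`- (α ^ k + β ^ k) / (k q) * wt x q`. -/
noncomputable def powProd (W : WeierstrassCurve ℤ) (x : ℕ) : ℝ :=
  Real.exp (-∑ q ∈ Finset.Icc 1 x, lam W q * wt x q)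

/-- The number of rational points with `h(x(Q)) ≤ log log x`. -/
noncomputable def pts (W : WeierstrassCurve ℤ) (x : ℕ) : ℕ :=
  Nat.card {Q : EQ W // nht Q ≤ Real.log (Real.log x)}

/-- The constant `g = ∫_0^∞ (e ^ (-y) - 1 / Γ (1 + y)) dy / y`. -/
noncomputable def g : ℝ := ∫ y in Ioi (0 : ℝ), (Real.exp (-y) - (Real.Gamma (1 + y))⁻¹) / y

/-- `R x / (pts W x) ^ 2` has a positive limit exactly if the rank of the group of rational points
is `m`; and for `X > 0` it tends to `c / X` exactly if this group has a basis modulo torsion of `m`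
points with `|F⁽ᵐ⁾(1) / m!| = X * regulator / (number of torsion points)²`. -/
def PointLaw (W : WeierstrassCurve ℤ) (F : ℂ → ℂ) (m : ℕ) (R : ℕ → ℝ) (c : ℝ) : Prop :=
  (Module.rank ℤ (EQ W) = m ↔
    ∃ Y : ℝ, 0 < Y ∧ Tendsto (fun x : ℕ => R x / (pts W x : ℝ) ^ 2) atTop (𝓝 Y)) ∧
  ∀ X : ℝ, 0 < X → ((∃ P : Fin m → EQ W, IsMWBasis P ∧
      ‖iteratedDeriv m F 1 / (m.factorial : ℂ)‖ = X * (gmat nht P).det / (tors (EQ W) : ℝ) ^ 2) ↔
    Tendsto (fun x : ℕ => R x / (pts W x : ℝ) ^ 2) atTop (𝓝 (c / X)))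

/-- Let `W` be an integral Weierstrass equation with nonzero discriminant, `F` entire and equal to
the Euler product for `Re s > 3/2`, and `m` its order of vanishing at `s = 1`. The products
over the prime powers up to `x`, and, if `SqWin W` holds, over the primes up to `x`, compare with
the square of the number of rational points with `h(x(Q)) ≤ log log x`: the rank is `m` exactly if
the quotient has a positive limit, and the limit gives the leading coefficient. All hypotheses hold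
for the curves `y² = x³ - k x`, `y² = x³ + k`, `y² = x³ + 6 k x² + k² x` and
`y² = x³ + 6 k x² - 3 k² x`. -/
theorem result :
    (∀ W : WeierstrassCurve ℤ, W.Δ ≠ 0 → ∀ (F : ℂ → ℂ) (m : ℕ), IsCont W F m →
      ∀ c : ℝ, c = Real.Gamma ((m : ℝ) / 2 + 1) ^ 2 / (2 * Real.pi * Real.exp g) ^ m →
      PointLaw W F m (powProd W) c ∧
      (SqWin W → PointLaw W F m (primeProd W) (√2 * c / badProd W))) ∧
    ∀ k : ℤ, k ≠ 0 → ∀ W : WeierstrassCurve ℤ,
      W = quar k ∨ W = sext k ∨ W = two (6 * k) (k ^ 2) ∨ W = two (6 * k) (-3 * k ^ 2) →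
      W.Δ ≠ 0 ∧ SqWin W ∧ ∃ (F : ℂ → ℂ) (m : ℕ), IsCont W F m := by
  refine ⟨fun W hD F m hF c hc => ⟨?_, fun hS => ?_⟩, fun k hk W hW => ?_⟩
  · have h := law_abs (nht_aht hD) (f := powProd W)
      (k := Real.exp (-(Pool.Agent.Helper10.UP.kap * m)) / 2 ^ m) (by positivity)
      (norm_lead_pos hF) tendsto_loglog (star_fin hF)
    rw [const_star] at h
    rw [hc]
    exact h
  · have hB := badProd_pos W hD
    have h := law_abs (nht_aht hD) (f := primeProd W)
      (k := √2 / badProd W * (Real.exp (-(Pool.Agent.Helper10.UP.kap * m)) / 2 ^ m))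
      (by positivity) (norm_lead_pos hF) tendsto_loglog (prime_fin hD hS hF)
    have e : √2 / badProd W * (Real.exp (-(Pool.Agent.Helper10.UP.kap * m)) / 2 ^ m) / vb m ^ 2
        = √2 * c / badProd W := by
      rw [hc, mul_div_assoc, const_star]
      show _ = √2 * (Real.Gamma ((m : ℝ) / 2 + 1) ^ 2
        / (2 * Real.pi * Real.exp Pool.Agent.Helper10.UP.kap) ^ m) / badProd W
      ring
    rw [e] at h
    exact h
  · obtain ⟨h1, h2, F, m, h3, -⟩ := cm_all hk hW
    exact ⟨h1, h2, F, m, h3⟩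

end Pool.Agent.Results.MP_4a9ea6_nt.PrimesAndPoints
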